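import Pool.Agent.U976.TJ.Defs
import Pool.Agent.U976.TG.B

/-!
# Negative faces are vertical, and equivariant programs are finite
-/

set_option autoImplicit false

namespace Pool.Agent.U976.TJ

open Pool.Agent.U976.LT (pr IsNef pr_add pr_smul rep_pair)
open Pool.Agent.U976.TG Filter Topology
open Pool.Agent.U976.TF (map_sum_smul exists_form)

variable {ι : Type*} [Fintype ι] {n : ℕ} {u : ι → Fin n → ℤ} {S S' : Set (Set ι)}
variable {W : Type*} [NormedAddCommGroup W] [NormedSpace ℝ W] {C : Set W} {κ δ : W} {N : Fin n → W}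
  {d b : ι → ℝ} {α : W}

/-- The negative faces are vertical. -/
theorem vertical (hS : IsFan u S) (hadd : ∀ x ∈ C, ∀ y ∈ C, x + y ∈ C)
    (hsmul : ∀ t : ℝ, 0 ≤ t → ∀ x ∈ C, t • x ∈ C) (hint : (interior C).Nonempty) (hκ : κ ∈ C)
    (hb : IsLC u S C N b α) {h : ι → ℝ} {c : W}
    (hs : IsNegativeFace u S C N (fun i => b i - 1) (κ + α) h c) {R : (ι → ℝ) × (W →L[ℝ] ℝ)}
    (hR : R ∈ NE u S C N) (h0 : deg R h c = 0) : R.2 = 0 := by
  classical
  -- the base parts at the maximal cones are interior points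
  have hbase : ∀ σ ∈ S, (∀ τ ∈ S, σ ⊆ τ → τ = σ) → ∃ q : Fin n → ℝ, (∀ i ∈ σ, h i + pr u q i = 0) ∧
      (∀ i, {i} ∈ S → 0 ≤ h i + pr u q i) ∧ c + ∑ l, q l • N l ∈ interior C := by
    intro σ hσ _
    obtain ⟨q, hq1, hq2, hq3⟩ := hs.nef σ hσ
    refine ⟨q, hq1, hq2, ?_⟩
    by_contra hbad
    obtain ⟨ψ, hψ0, hψC, hψx⟩ := exists_form hadd hsmul hint hq3 hbad
    obtain ⟨a, ha⟩ := hS.cover (fun l => ψ (N l))
    have hmem := horiz_mem (N := N) hS hψC ha
    have haS := rep_ray hS ha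
    have h1 : deg ((fun i => - a i, ψ) : (ι → ℝ) × (W →L[ℝ] ℝ)) h c = 0 := by
      refine le_antisymm ?_ (hmem.2.2 _ _ hs.nef)
      have e1 : 0 ≤ ∑ i, a i * h i + ∑ l, q l * ψ (N l) := by
        rw [rep_pair (w := fun l => ψ (N l)) ha.2.2, ← Finset.sum_add_distrib]
        refine Finset.sum_nonneg fun i _ => ?_
        rw [← mul_add]
        by_cases hi : a i = 0
        · rw [hi, zero_mul]
        · exact mul_nonneg (ha.1 i) (hq2 i (haS i hi))
      rw [map_sum_smul] at hψx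
      simp only [deg, neg_mul, Finset.sum_neg_distrib]
      linarith
    have hne : ∃ x, ψ x ≠ 0 := by
      by_contra hall
      push Not at hall
      exact hψ0 (ContinuousLinearMap.ext hall)
    obtain ⟨x, hx⟩ := hne
    have h2 := hs.neg _ hmem h1 ⟨fun _ => 0, x, fun τ _ => ⟨0, fun i _ => by simp [pr]⟩, by
      simpa [deg] using hx⟩
    obtain ⟨p, -, hp2, hp3⟩ := hb _ a ha
    have f1 := hψC _ hκ
    have f2 := hψC _ hp2
    rw [map_sum_smul] at f2
    have f3 := rep_pair (w := fun l => ψ (N l)) ha.2.2 p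
    simp only [mul_add, Finset.sum_add_distrib] at hp3
    simp only [deg, neg_mul, Finset.sum_neg_distrib, map_add, mul_sub, mul_one,
      Finset.sum_sub_distrib] at h2
    linarith
  -- perturbations by classes of the base are nef
  have key : ∀ x : W, 0 ≤ R.2 x := by
    intro x
    have hev : ∀ᶠ ε in 𝓝[>] (0 : ℝ), ∀ σ : Set ι, σ ∈ S → (∀ τ ∈ S, σ ⊆ τ → τ = σ) →
        ∃ q : Fin n → ℝ, (∀ i ∈ σ, h i + pr u q i = 0) ∧
          (∀ i, {i} ∈ S → 0 ≤ h i + pr u q i) ∧ (c + ε • x) + ∑ l, q l • N l ∈ C := by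
      rw [eventually_all]
      intro σ
      by_cases hσ : σ ∈ S ∧ (∀ τ ∈ S, σ ⊆ τ → τ = σ)
      · obtain ⟨q, hq1, hq2, hq3⟩ := hbase σ hσ.1 hσ.2
        have hev2 : ∀ᶠ ε in 𝓝[>] (0 : ℝ), (c + ε • x) + ∑ l, q l • N l ∈ interior C := by
          have e2 : Continuous fun ε : ℝ => (c + ε • x) + ∑ l, q l • N l := by
            fun_prop
          have e3 := (e2.tendsto 0).mono_left (nhdsWithin_le_nhds (s := Set.Ioi 0))
          refine e3.eventually ?_
          have e4 : (c + (0 : ℝ) • x) + ∑ l, q l • N l = c + ∑ l, q l • N l := by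
            simp
          rw [e4]
          exact isOpen_interior.mem_nhds hq3
        filter_upwards [hev2] with ε h2 _ _
        exact ⟨q, hq1, hq2, interior_subset h2⟩
      · exact Eventually.of_forall fun ε h1 h2 => absurd ⟨h1, h2⟩ hσ
    obtain ⟨ε, hε, hε0⟩ := (hev.and self_mem_nhdsWithin).exists
    have hε0' : (0 : ℝ) < ε := hε0
    have hnef : IsNef u S C N h (c + ε • x) := by
      intro σ hσ
      obtain ⟨τ, hτ1, hτ2⟩ := (Set.toFinite S).exists_le_maximal hσ
      obtain ⟨q, hq1, hq2, hq3⟩ := hε τ hτ2.prop fun ρ hρ hle => (hτ2.eq_of_le hρ hle).symm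
      exact ⟨q, fun i hi => hq1 i (hτ1 hi), hq2, hq3⟩
    have h1 := hR.2.2 _ _ hnef
    have h2 : deg R h (c + ε • x) = deg R h c + ε * R.2 x := by
      simp only [deg, map_add, map_smul, smul_eq_mul]
      ring
    rw [h2, h0, zero_add] at h1
    exact nonneg_of_mul_nonneg_right h1 hε0'
  ext x
  have h1 := key x
  have h2 := key (-x)
  rw [map_neg] at h2
  have h3 : R.2 x = 0 := le_antisymm (by linarith) h1
  simpa using h3

/-- The discrepancies do not decrease in a step. -/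
theorem step_le (hS : IsFan u S) (hd : IsCartier u S d) (hst : TJ.IsStep u S S' C N d δ)
    {w : Fin n → ℝ} {a a' : ι → ℝ} (ha : IsRep u S w a) (ha' : IsRep u S' w a') :
    ∑ i, a' i * d i ≤ ∑ i, a i * d i := by
  obtain ⟨h, c, hs, -, hpull, -⟩ := hst.step
  have haS' : ∀ i, a' i ≠ 0 → {i} ∈ S := fun i hi => hst.rays i (rep_ray hst.fan ha' i hi)
  have hmem := vert_mem (C := C) (N := N) hS ha ha'.1 haS' ha'.2.2
  have h1 : deg ((fun i => a' i - a i, 0) : (ι → ℝ) × (W →L[ℝ] ℝ)) h c = 0 := by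
    simp only [deg, zero_apply, add_zero, sub_mul, Finset.sum_sub_distrib]
    rw [hpull w a a' ha ha', sub_self]
  have h2 : deg ((fun i => a' i - a i, 0) : (ι → ℝ) × (W →L[ℝ] ℝ)) d δ ≤ 0 := by
    by_contra hcon
    push Not at hcon
    have h3 := hs.neg _ hmem h1 ⟨d, δ, hd, hcon.ne'⟩
    linarith
  simp only [deg, zero_apply, add_zero, sub_mul, Finset.sum_sub_distrib] at h2
  linarith

end Pool.Agent.U976.TJ
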