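import Pool.Agent.U976.TG.Defs

/-!
# Equivariant steps: contractions of faces

The notation is the one of `Pool.Agent.U976.TG.Defs`. A finite group `G` acts on the toric bundle `Y` (and may
act on the base and permute the line bundles and the rays), freely in codimension one, and `Z = Y / G`. The
contraction of an extremal ray of `Z` corresponds to the contraction of a face of the cone of curves of `Y`.
-/

set_option autoImplicit false

namespace Pool.Agent.U976.TJ

open Pool.Agent.U976.LT (pr IsNef)
open Pool.Agent.U976.TG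

variable {ι : Type*} [Fintype ι] {n : ℕ} {W : Type*} [NormedAddCommGroup W] [NormedSpace ℝ W]

/-- The nef class `(h, c)` defines a face of the cone of curves on which the class `(d, δ)` is negative: the
face is not zero, and `(d, δ)` is negative on each element of it which is not zero as a linear form on the
`ℝ`-Cartier classes. -/
structure IsNegativeFace (u : ι → Fin n → ℤ) (S : Set (Set ι)) (C : Set W) (N : Fin n → W)
    (d : ι → ℝ) (δ : W) (h : ι → ℝ) (c : W) : Prop where
  nef : IsNef u S C N h c
  ne : ∃ R ∈ NE u S C N, deg R h c = 0 ∧ deg R d δ < 0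
  neg : ∀ R ∈ NE u S C N, deg R h c = 0 →
    (∃ (d' : ι → ℝ) (α : W), IsCartier u S d' ∧ deg R d' α ≠ 0) → deg R d δ < 0

/-- `Y ⇢ Y'` is the step for a negative face: as in `Pool.Agent.U976.TG.IsStep`, but `(h, c)` (the pullback of
an ample class by the contraction `Y → Z`) defines a negative face and not only a negative ray. -/
structure IsStep (u : ι → Fin n → ℤ) (S S' : Set (Set ι)) (C : Set W) (N : Fin n → W)
    (d : ι → ℝ) (δ : W) : Prop where
  fan : IsFan u S'
  cartier : IsCartier u S' d
  rays : ∀ i, {i} ∈ S' → {i} ∈ S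
  step : ∃ (h : ι → ℝ) (c : W), IsNegativeFace u S C N d δ h c ∧ IsNef u S' C N h c ∧
    (∀ (w : Fin n → ℝ) (a a' : ι → ℝ), IsRep u S w a → IsRep u S' w a' →
      ∑ i, a i * h i = ∑ i, a' i * h i) ∧
    ∃ t : ℝ, 0 ≤ t ∧ IsAmple u S' C N (fun i => d i + t * h i) (δ + t • c)

/-- The class `(b, α)` of a boundary has the property of log canonical pairs (see
`Pool.Agent.U976.LT.Defs`; here the fan need not be simplicial, and `K + B` is `ℝ`-Cartier, so the condition
does not depend on the representation of `w`). -/
def IsLC (u : ι → Fin n → ℤ) (S : Set (Set ι)) (C : Set W) (N : Fin n → W) (b : ι → ℝ) (α : W) :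
    Prop :=
  ∀ (w : Fin n → ℝ) (a : ι → ℝ), IsRep u S w a → ∃ q : Fin n → ℝ, (∀ i, 0 ≤ b i + pr u q i) ∧
    α + ∑ l, q l • N l ∈ C ∧ ∑ i, a i * (b i + pr u q i) ≤ ∑ i, a i

end Pool.Agent.U976.TJ
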